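import Pool.Agent.Helper83.T5.Leaf
import Pool.Agent.Helper30.T5.Stat2

/-!
# T5a, the leaf in units, and the leaf of the random windows for large distance
-/

set_option autoImplicit false

namespace Pool.Agent.Helper83.T5

open Pool.Agent.Helper5.ET hiding Key Mk bkey keysOf vlo vhi Rp AA
open Finset Pool.Agent.Helper27.T4 Pool.Agent.Helper27.T5
open Pool.Agent.Helper22.HW Pool.Agent.Helper30.T5 Pool.Agent.Helper57.T5
open Pool.Agent.Helper39.T5 Pool.Agent.Helper50.T5 Pool.Agent.Helper42.T5.Pr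
open Pool.Agent.Helper11.T5

/-- product of the decoding constants of the first `k` static levels -/
noncomputable def CL (k : ℕ) : ℕ := ∏ t ∈ range k, Cps t

theorem CL_pos (k : ℕ) : 0 < CL k := Finset.prod_pos (fun t _ => Cps_pos t)

theorem prod_Cps_le {s k : ℕ} (hs : s ≤ k) : ∏ t ∈ range (k - s), Cps (s + t) ≤ CL k := by
  unfold CL
  rw [← Finset.prod_range_mul_prod_Ico _ hs, Finset.prod_Ico_eq_prod_range]
  exact Nat.le_mul_of_pos_left _ (Finset.prod_pos (fun t _ => Cps_pos t))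

/-- **The leaf**, with a constant which does not depend on the level. -/
theorem leaf_Zw' {m k l l' s R : ℕ} (he : era l' = era l) (hs : s ≤ k) (w : Key → ℕ)
    (hR : ∀ n, ((Vw m k l w ×ˢ Vw m k l' w).filter (fun q =>
      Nj l * LA m k (era l) * q.1 + Nj l' * LA m k (era l) * q.2 = n)).card ≤ R) (n : ℕ) :
    ((Zw m k l s w ×ˢ Zw m k l' s w).filter (fun q => q.1 + q.2 = n)).card ≤ CL k * R :=
  (leaf_Zw he hs w hR n).trans (Nat.mul_le_mul_right R (prod_Cps_le hs))

/-- **The leaf in units.** -/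
theorem leaf_Bw {m k l l' s R : ℕ} (hb : 10 * m ≤ la (era l)) (hk : k + 1 < m)
    (he : era l' = era l) (hs : s ≤ k) (w : Key → ℕ)
    (hR : ∀ n, ((Vw m k l w ×ˢ Vw m k l' w).filter (fun q =>
      Nj l * LA m k (era l) * q.1 + Nj l' * LA m k (era l) * q.2 = n)).card ≤ R) (n : ℕ) :
    ((Bw m k l s w ×ˢ Bw m k l' s w).filter (fun q =>
      Nj l * LL (QQ m (era l)) s * q.1 + Nj l' * LL (QQ m (era l)) s * q.2 = n)).card ≤
      CL k * R := by
  refine le_trans (card_le_card_of_injOn (fun q => (Nj l * LL (QQ m (era l)) s * q.1,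
    Nj l' * LL (QQ m (era l)) s * q.2)) ?_ ?_) (leaf_Zw' he hs w hR n)
  · intro q hq
    rw [mem_coe, mem_filter, mem_product] at hq
    obtain ⟨⟨h1, h2⟩, h3⟩ := hq
    unfold Bw at h1 h2
    rw [mem_image] at h1 h2
    obtain ⟨u, hu, h1⟩ := h1
    obtain ⟨u', hu', h2⟩ := h2
    have e1 : Nj l * LL (QQ m (era l)) s * q.1 = u := by
      rw [← h1, Nat.mul_div_cancel' (dvd_Zw hb hk hs hu)]
    have e2 : Nj l' * LL (QQ m (era l)) s * q.2 = u' := by
      rw [← he, ← h2, Nat.mul_div_cancel' (dvd_Zw (by rw [he]; exact hb) hk hs hu')]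
    rw [mem_coe, mem_filter, mem_product]
    simp only [e1, e2]
    rw [e1, e2] at h3
    exact ⟨⟨hu, hu'⟩, h3⟩
  · intro q _ q' _ h
    have h1 := (Prod.ext_iff.1 h).1
    have h2 := (Prod.ext_iff.1 h).2
    simp only at h1 h2
    have p1 : 0 < Nj l * LL (QQ m (era l)) s := Nat.mul_pos (Nj_pos1 _) (LLQ_pos _ _ _)
    have p2 : 0 < Nj l' * LL (QQ m (era l)) s := Nat.mul_pos (Nj_pos1 _) (LLQ_pos _ _ _)
    exact Prod.ext (Nat.eq_of_mul_eq_mul_left p1 h1) (Nat.eq_of_mul_eq_mul_left p2 h2)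

/-! ## the random windows, large distance -/

/-- the pair is determined by the sum if the lower window is short -/
theorem vleaf_one {m k l l' : ℕ} (h : Nj l' * vhi m k l' ≤ Nj l)
    (w : Key → ℕ) (n : ℕ) :
    ((Vw m k l w ×ˢ Vw m k l' w).filter (fun q =>
      Nj l * LA m k (era l) * q.1 + Nj l' * LA m k (era l) * q.2 = n)).card ≤ 1 := by
  have hLA := LA_pos m k (era l)
  have hN := Nj_pos1 l
  have hN' := Nj_pos1 l'
  have key : ∀ q ∈ (Vw m k l w ×ˢ Vw m k l' w).filter (fun q =>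
      Nj l * LA m k (era l) * q.1 + Nj l' * LA m k (era l) * q.2 = n),
      q.1 = n / LA m k (era l) / Nj l ∧ Nj l' * q.2 = n / LA m k (era l) % Nj l := by
    intro q hq
    rw [mem_filter, mem_product] at hq
    obtain ⟨⟨_, h2⟩, h3⟩ := hq
    have h4 := (lt_of_mem_Vw h2).2
    have h5 : Nj l' * q.2 < Nj l := lt_of_lt_of_le (Nat.mul_lt_mul_of_pos_left h4 hN') h
    have h6 : n = LA m k (era l) * (Nj l * q.1 + Nj l' * q.2) := by
      rw [← h3]
      ring
    have h7 : n / LA m k (era l) = Nj l * q.1 + Nj l' * q.2 := by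
      rw [h6, Nat.mul_div_cancel_left _ hLA]
    rw [h7]
    constructor
    · rw [Nat.mul_add_div hN, Nat.div_eq_of_lt h5, add_zero]
    · rw [Nat.mul_add_mod, Nat.mod_eq_of_lt h5]
  rw [card_le_one]
  intro q hq q' hq'
  obtain ⟨a1, a2⟩ := key q hq
  obtain ⟨b1, b2⟩ := key q' hq'
  exact Prod.ext (a1.trans b1.symm) (Nat.eq_of_mul_eq_mul_left hN' (a2.trans b2.symm))

/-- upper bound for the window -/
theorem vhi_le {m k l' : ℕ} (h2 : era (l' + 1) = era l') :
    vhi m k l' ≤ 1000037 * vlo m k (era l') := by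
  have hLA := LA_pos m k (era l')
  have hN' := Nj_pos1 l'
  unfold vhi
  rw [Nat.div_le_iff_le_mul_add_pred (Nat.mul_pos hN' hLA)]
  refine le_trans (Nat.sub_le _ _) (le_trans ?_ (Nat.le_add_right _ _))
  unfold XA XT TA
  rw [h2]
  have h3 : Nj (l' + 1) ≤ Nj l' * 1000037 := by
    rw [Nj_succ]
    exact Nat.mul_le_mul_left _ (pr_le _)
  calc Nj (l' + 1) * (LA m k (era l') * vlo m k (era l'))
      ≤ (Nj l' * 1000037) * (LA m k (era l') * vlo m k (era l')) := Nat.mul_le_mul_right _ h3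
    _ = Nj l' * LA m k (era l') * (1000037 * vlo m k (era l')) := by ring

/-- upper bound for the lower end of the window -/
theorem vlo_le {m k j : ℕ} (hk : k + 2 ≤ m) (hr : 8 ≤ rt m j) :
    vlo m k j ≤ spq (k + 1) * (10 ^ 6) ^ W m j (k + 1) + 1 := by
  unfold vlo
  refine Nat.add_le_add_right ?_ 1
  have hLA := LA_pos m k j
  rw [Nat.div_le_iff_le_mul_add_pred hLA]
  refine le_trans ?_ (Nat.le_add_right _ _)
  have h1 := le_Lp_mul (m := m) (j := j) (s := k + 1) (by omega) (by omega) hr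
  have h2 : LA m k j = Lp m j (k + 1) := LL_QQ m j k
  rw [← h2] at h1
  have h3 : W m j (k + 1) ≤ W m j 1 := W_anti m j (by omega)
  calc (10 ^ 6) ^ W m j 1 = (10 ^ 6) ^ (W m j 1 - W m j (k + 1)) * (10 ^ 6) ^ W m j (k + 1) := by
        rw [← pow_add]
        congr 1
        omega
    _ ≤ (LA m k j * spq (k + 1)) * (10 ^ 6) ^ W m j (k + 1) := Nat.mul_le_mul_right _ h1
    _ = LA m k j * (spq (k + 1) * (10 ^ 6) ^ W m j (k + 1)) := by ring

/-- a constant number of digits above `W m j (k + 1)` -/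
noncomputable def cv0 (k : ℕ) : ℕ := 1000037 * (spq (k + 1) + 1)

/-- **The lower window is short** if the distance exceeds `W (k + 1)` by a constant. -/
theorem vhi_short {m k l l' : ℕ} (hk : k + 2 ≤ m) (hr : 8 ≤ rt m (era l)) (hl : l' < l)
    (he : era l' = era l) (hD : W m (era l) (k + 1) + cv0 k ≤ l - l') :
    Nj l' * vhi m k l' ≤ Nj l := by
  have h2 : era (l' + 1) = era l' := by
    have a1 := era_mono (show l' ≤ l' + 1 by omega)
    have a2 := era_mono (show l' + 1 ≤ l by omega)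
    omega
  have h3 := vhi_le (m := m) (k := k) h2
  rw [he] at h3
  have h4 := vlo_le (m := m) (k := k) (j := era l) hk hr
  have h5 : (1 : ℕ) ≤ (10 ^ 6) ^ W m (era l) (k + 1) := Nat.one_le_pow _ _ (by norm_num)
  have h6 : vhi m k l' ≤ cv0 k * (10 ^ 6) ^ W m (era l) (k + 1) := by
    unfold cv0
    calc vhi m k l' ≤ 1000037 * vlo m k (era l) := h3
      _ ≤ 1000037 * (spq (k + 1) * (10 ^ 6) ^ W m (era l) (k + 1) + 1) :=
          Nat.mul_le_mul_left _ h4
      _ ≤ 1000037 * (spq (k + 1) * (10 ^ 6) ^ W m (era l) (k + 1) +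
            (10 ^ 6) ^ W m (era l) (k + 1)) :=
          Nat.mul_le_mul_left _ (Nat.add_le_add_left h5 _)
      _ = 1000037 * (spq (k + 1) + 1) * (10 ^ 6) ^ W m (era l) (k + 1) := by ring
  have h7 : cv0 k ≤ (10 ^ 6) ^ cv0 k := (Nat.lt_pow_self (by norm_num)).le
  have h8 := million_pow_le_Nj_div hl.le
  have h9 : Nj l' * (10 ^ 6) ^ (l - l') ≤ Nj l :=
    le_trans (Nat.mul_le_mul_left _ h8) (Nat.mul_div_le _ _)
  refine le_trans (Nat.mul_le_mul_left _ ?_) h9
  calc vhi m k l' ≤ cv0 k * (10 ^ 6) ^ W m (era l) (k + 1) := h6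
    _ ≤ (10 ^ 6) ^ cv0 k * (10 ^ 6) ^ W m (era l) (k + 1) := Nat.mul_le_mul_right _ h7
    _ = (10 ^ 6) ^ (W m (era l) (k + 1) + cv0 k) := by rw [← pow_add]; congr 1; omega
    _ ≤ (10 ^ 6) ^ (l - l') := Nat.pow_le_pow_right (by norm_num) hD

/-- the same with `2 * W (k + 1)`, late eras -/
theorem exists_vhi_short (m k : ℕ) (hk : k + 2 ≤ m) : ∃ j0 : ℕ, ∀ l' l : ℕ, l' < l →
    era l' = era l → j0 ≤ era l → 2 * W m (era l) (k + 1) ≤ l - l' →
    Nj l' * vhi m k l' ≤ Nj l := by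
  obtain ⟨j1, h1⟩ := exists_le_rt (show 0 < m by omega) 8
  obtain ⟨j2, h2⟩ := exists_le_rt (show 0 < m by omega) (cv0 k)
  refine ⟨max j1 j2, fun l' l hl he hj hD => ?_⟩
  have hr := h1 (era l) (le_trans (le_max_left _ _) hj)
  have hr2 := h2 (era l) (le_trans (le_max_right _ _) hj)
  have h3 : rt m (era l) ≤ W m (era l) (k + 1) :=
    Pool.Agent.Helper30.T5.rt_le_W (by omega)
  exact vhi_short hk hr hl he (by omega)

/-- **Leaf of a pair at large distance**, sums of elements. -/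
theorem leaf_Zw_far {m k l l' s : ℕ} (he : era l' = era l) (hs : s ≤ k)
    (h : Nj l' * vhi m k l' ≤ Nj l) (w : Key → ℕ) (n : ℕ) :
    ((Zw m k l s w ×ˢ Zw m k l' s w).filter (fun q => q.1 + q.2 = n)).card ≤ CL k := by
  have h1 := leaf_Zw' (m := m) (k := k) he hs w (vleaf_one h w) n
  rwa [mul_one] at h1

/-- **Leaf of a pair at large distance**, in units. -/
theorem leaf_Bw_far {m k l l' s : ℕ} (hb : 10 * m ≤ la (era l)) (hk : k + 1 < m)
    (he : era l' = era l) (hs : s ≤ k) (h : Nj l' * vhi m k l' ≤ Nj l) (w : Key → ℕ) (n : ℕ) :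
    ((Bw m k l s w ×ˢ Bw m k l' s w).filter (fun q =>
      Nj l * LL (QQ m (era l)) s * q.1 + Nj l' * LL (QQ m (era l)) s * q.2 = n)).card ≤
      CL k := by
  have h1 := leaf_Bw (m := m) (k := k) hb hk he hs w (vleaf_one h w) n
  rwa [mul_one] at h1

end Pool.Agent.Helper83.T5
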