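import Pool.Agent.Helper11.T5.Facts

/-!
# T5a, the leaf: decoding of the static levels below a level

For two states of one era the number of pairs of elements of the windows below the static level
`s` with a given sum is at most a constant (product of the decoding constants of the levels
`s, ..., k - 1`) times the same number for the random windows `Vw`.
-/

set_option autoImplicit false

namespace Pool.Agent.Helper83.T5

open Pool.Agent.Helper5.ET hiding Key Mk bkey keysOf vlo vhi Rp AA
open Finset Pool.Agent.Helper27.T4 Pool.Agent.Helper27.T5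
open Pool.Agent.Helper22.HW Pool.Agent.Helper30.T5 Pool.Agent.Helper57.T5
open Pool.Agent.Helper39.T5 Pool.Agent.Helper50.T5 Pool.Agent.Helper42.T5.Pr
open Pool.Agent.Helper11.T5

/-- decoding constant of the static level `t` -/
noncomputable def Cps (t : ℕ) : ℕ := ∏ f : Fin 3, (2 * (ps t f - 1))

theorem ps_ne_two (t : ℕ) (f : Fin 3) : ps t f ≠ 2 := by
  have h := million_lt_sp (3 * (t + 2) + f)
  unfold ps
  omega

theorem Cps_pos (t : ℕ) : 0 < Cps t := by
  unfold Cps
  refine Finset.prod_pos (fun f _ => ?_)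
  have h := million_lt_sp (3 * (t + 2) + f)
  unfold ps
  omega

/-- decoding of one static level, two states of one era -/
theorem dec_cs (m : ℕ) {l l' : ℕ} (he : era l' = era l) (t : ℕ) (w : Key → ℕ) :
    Dec (Ys m (era l) t) (Ys m (era l) t) (cs m l t w) (cs m l' t w) (QQ m (era l) t)
      (Cps t) := by
  have h1 := Ss_ok m l t
  have h2 := Ss_ok m l' t
  exact Pool.Agent.Helper73.T5.dec_sadm (ps_prime t) (ps_ne_two t) (ps_inj t) _ _ h1.cop h2.cop
    Pool.Agent.Helper22.SL.rk3 (es m (era l) t) (es m (era l') t) (es m (era l) t)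
    (fun _ => le_rfl) (fun i => by rw [he]) ((Ss m l t).rho w) ((Ss m l' t).rho w)
    (fun i x y h => h1.rho_dep w i x y h) (fun i x y h => h2.rho_dep w i x y h)
    (Ys m (era l) t) (Ys_adm _ _ _)

theorem LL_add (Q : ℕ → ℕ) (s t : ℕ) : LL Q (s + t) = LL Q s * LL (fun i => Q (s + i)) t := by
  unfold LL
  rw [Finset.prod_range_add]

/-- decoding of the static levels `s, ..., s + r - 1` -/
theorem dec_tower (m : ℕ) {l l' : ℕ} (he : era l' = era l) (s r : ℕ) (w : Key → ℕ) (T : ℕ) :
    ((Fintype.piFinset (fun t : Fin r => Ys m (era l) (s + t) ×ˢ Ys m (era l) (s + t))).filter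
      (fun y => ∑ t : Fin r, (cs m l (s + t) w (y t).1 + cs m l' (s + t) w (y t).2) ≡ T
        [MOD LL (fun i => QQ m (era l) (s + i)) r])).card ≤ ∏ t ∈ range r, Cps (s + t) := by
  refine tower_dec (fun t => Ys m (era l) (s + t) ×ˢ Ys m (era l) (s + t))
    (fun t y => cs m l (s + t) w y.1 + cs m l' (s + t) w y.2)
    (fun i => QQ m (era l) (s + i)) (fun t => Cps (s + t)) r ?_ ?_ T
  · intro t _ y _
    have h0 : LL (fun i => QQ m (era l) (s + i)) t ∣ LL (QQ m (era l)) (s + t) := by
      rw [LL_add]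
      exact dvd_mul_left _ _
    refine dvd_add ?_ ?_
    · exact h0.trans ((dvd_mul_left _ _).trans (dvd_cs m l (s + t) w y.1))
    · have h1 := dvd_cs m l' (s + t) w y.2
      rw [he] at h1
      exact h0.trans ((dvd_mul_left _ _).trans h1)
  · intro t _ T
    exact dec_cs m he (s + t) w T

/-- the generic element of the window below the level `s` -/
noncomputable def uel (m k l s : ℕ) (w : Key → ℕ) (q : (Fin (k - s) → Fin 3 → ℕ) × ℕ) : ℕ :=
  ∑ t : Fin (k - s), cs m l (s + t) w (q.1 t) + Nj l * LA m k (era l) * q.2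

theorem Zw_eq (m k l s : ℕ) (w : Key → ℕ) : Zw m k l s w =
    ((Fintype.piFinset (fun t : Fin (k - s) => Ys m (era l) (s + t))) ×ˢ Vw m k l w).image
      (uel m k l s w) := rfl

/-- **The leaf**: pairs of elements of the windows below the static level `s`, sum given. -/
theorem leaf_Zw {m k l l' s R : ℕ} (he : era l' = era l) (hs : s ≤ k) (w : Key → ℕ)
    (hR : ∀ n, ((Vw m k l w ×ˢ Vw m k l' w).filter (fun q =>
      Nj l * LA m k (era l) * q.1 + Nj l' * LA m k (era l) * q.2 = n)).card ≤ R) (n : ℕ) :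
    ((Zw m k l s w ×ˢ Zw m k l' s w).filter (fun q => q.1 + q.2 = n)).card ≤
      (∏ t ∈ range (k - s), Cps (s + t)) * R := by
  classical
  set P := Fintype.piFinset (fun t : Fin (k - s) => Ys m (era l) (s + t)) with hP
  have hP' : Fintype.piFinset (fun t : Fin (k - s) => Ys m (era l') (s + t)) = P := by
    rw [he]
  have hLA : LA m k (era l') = LA m k (era l) := by rw [he]
  -- the set of representations
  set S := (((P ×ˢ Vw m k l w) ×ˢ (P ×ˢ Vw m k l' w))).filter
    (fun q => uel m k l s w q.1 + uel m k l' s w q.2 = n) with hS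
  have h1 : ((Zw m k l s w ×ˢ Zw m k l' s w).filter (fun q => q.1 + q.2 = n)) ⊆
      S.image (fun q => (uel m k l s w q.1, uel m k l' s w q.2)) := by
    intro q hq
    rw [mem_filter, mem_product, Zw_eq, Zw_eq, mem_image, mem_image] at hq
    obtain ⟨⟨⟨a, ha, ha2⟩, ⟨b, hb, hb2⟩⟩, h2⟩ := hq
    rw [hP'] at hb
    rw [mem_image]
    refine ⟨(a, b), ?_, Prod.ext ha2 hb2⟩
    rw [hS, mem_filter, mem_product]
    exact ⟨⟨ha, hb⟩, by simp only [ha2, hb2, h2]⟩
  refine (card_le_card h1).trans (card_image_le.trans ?_)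
  -- decoding
  have hdec := dec_tower m he s (k - s) w n
  refine le_trans ?_ (Nat.mul_le_mul_right R hdec)
  rw [mul_comm]
  refine Finset.card_le_mul_card_image_of_maps_to
    (f := fun q : ((Fin (k - s) → Fin 3 → ℕ) × ℕ) × ((Fin (k - s) → Fin 3 → ℕ) × ℕ) =>
      (fun t : Fin (k - s) => (q.1.1 t, q.2.1 t))) ?_ R ?_
  · intro q hq
    rw [hS, mem_filter, mem_product, mem_product, mem_product, hP, Fintype.mem_piFinset,
      Fintype.mem_piFinset] at hq
    obtain ⟨⟨⟨h2, _⟩, ⟨h3, _⟩⟩, h4⟩ := hq
    rw [mem_filter, Fintype.mem_piFinset]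
    refine ⟨fun t => mem_product.2 ⟨h2 t, h3 t⟩, ?_⟩
    have hd : LL (fun i => QQ m (era l) (s + i)) (k - s) ∣ LA m k (era l) := by
      rw [LA_eq]
      conv_rhs => rw [show k = s + (k - s) by omega]
      rw [LL_add]
      exact dvd_mul_left _ _
    have h5 : ∑ t : Fin (k - s), (cs m l (s + t) w (q.1.1 t) + cs m l' (s + t) w (q.2.1 t)) +
        (Nj l * LA m k (era l) * q.1.2 + Nj l' * LA m k (era l) * q.2.2) = n := by
      rw [← h4, Finset.sum_add_distrib]
      unfold uel
      rw [hLA]
      ring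
    have h6 : (Nj l * LA m k (era l) * q.1.2 + Nj l' * LA m k (era l) * q.2.2) ≡ 0
        [MOD LL (fun i => QQ m (era l) (s + i)) (k - s)] := by
      refine (Nat.modEq_zero_iff_dvd).2 (dvd_add ?_ ?_)
      · exact (hd.mul_left _).mul_right _
      · exact (hd.mul_left _).mul_right _
    have h7 := (Nat.ModEq.refl (n := LL (fun i => QQ m (era l) (s + i)) (k - s))
      (∑ t : Fin (k - s), (cs m l (s + t) w (q.1.1 t) + cs m l' (s + t) w (q.2.1 t)))).add h6
    rw [add_zero, h5] at h7
    exact h7.symm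
  · intro z _
    rcases Finset.eq_empty_or_nonempty (S.filter (fun q =>
      (fun t : Fin (k - s) => (q.1.1 t, q.2.1 t)) = z)) with h0 | ⟨q0, hq0⟩
    · rw [h0]; simp
    · refine le_trans (card_le_card_of_injOn (fun q => (q.1.2, q.2.2)) ?_ ?_)
        (hR (Nj l * LA m k (era l) * q0.1.2 + Nj l' * LA m k (era l) * q0.2.2))
      · intro q hq
        rw [mem_coe, mem_filter, hS, mem_filter, mem_product, mem_product, mem_product] at hq
        rw [mem_filter, hS, mem_filter] at hq0
        obtain ⟨⟨⟨⟨_, h2⟩, ⟨_, h3⟩⟩, h4⟩, h5⟩ := hq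
        obtain ⟨⟨_, h6⟩, h7⟩ := hq0
        rw [mem_coe, mem_filter, mem_product]
        refine ⟨⟨h2, h3⟩, ?_⟩
        have h8 : q.1.1 = q0.1.1 := by
          funext t
          exact congrArg Prod.fst (congrFun (h5.trans h7.symm) t)
        have h9 : q.2.1 = q0.2.1 := by
          funext t
          exact congrArg Prod.snd (congrFun (h5.trans h7.symm) t)
        have h10 := h4.trans h6.symm
        unfold uel at h10
        rw [h8, h9, hLA] at h10
        show Nj l * LA m k (era l) * q.1.2 + Nj l' * LA m k (era l) * q.2.2 = _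
        omega
      · intro q hq q' hq' h
        rw [mem_coe, mem_filter] at hq hq'
        have h5 := hq.2.trans hq'.2.symm
        refine Prod.ext (Prod.ext ?_ (Prod.ext_iff.1 h).1) (Prod.ext ?_ (Prod.ext_iff.1 h).2)
        · funext t
          exact congrArg Prod.fst (congrFun h5 t)
        · funext t
          exact congrArg Prod.snd (congrFun h5 t)

end Pool.Agent.Helper83.T5
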